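import Pool.Agent.Helper38.BSC.PIVA

/-!
# Module PIV: the valuation of a class at an irreducible polynomial is an integer
-/

set_option autoImplicit false

namespace Pool.Agent.Helper14.BSC

open Polynomial Filter Topology

/-! ## pure arithmetic -/

theorem piv_arith (V : ℕ → ℤ) (hV : ∀ N M : ℕ, 0 < N → 0 < M → (N : ℤ) ∣ V (N * M) - V N)
    (S : Finset (ℤ × ℤ)) (hS : ∀ s ∈ S, 0 < s.1) (Q : ℕ) (hQ : 0 < Q)
    (h : ∀ N : ℕ, 0 < N → ∃ s ∈ S, (N : ℤ) ∣ Q * (s.1 * V N - s.2)) :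
    ∃ s ∈ S, ∃ m : ℤ, s.2 = s.1 * m ∧ ∀ N : ℕ, 0 < N → (N : ℤ) ∣ V N - m := by
  classical
  have h1 : ∃ s ∈ S, ∀ N : ℕ, 0 < N → (N : ℤ) ∣ s.1 * V N - s.2 := by
    by_contra hcon
    push Not at hcon
    have h2 : ∀ s : ℤ × ℤ, ∃ N : ℕ, 0 < N ∧ (s ∈ S → ¬ (N : ℤ) ∣ s.1 * V N - s.2) := by
      intro s
      by_cases hs : s ∈ S
      · obtain ⟨N, hN, hN'⟩ := hcon s hs
        exact ⟨N, hN, fun _ => hN'⟩
      · exact ⟨1, one_pos, fun h => absurd h hs⟩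
    choose g hg1 hg2 using h2
    have hP : 0 < ∏ s ∈ S, g s := Finset.prod_pos fun s _ => hg1 s
    obtain ⟨s, hs, hdvd⟩ := h (Q * ∏ s ∈ S, g s) (Nat.mul_pos hQ hP)
    have h3 : ((∏ s ∈ S, g s : ℕ) : ℤ) ∣ s.1 * V (Q * ∏ s ∈ S, g s) - s.2 := by
      have hQ' : (Q : ℤ) ≠ 0 := by exact_mod_cast hQ.ne'
      rw [Nat.cast_mul] at hdvd
      exact (mul_dvd_mul_iff_left hQ').1 hdvd
    have h4 : g s ∣ ∏ s ∈ S, g s := Finset.dvd_prod_of_mem g hs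
    obtain ⟨R, hR⟩ := h4
    have hR0 : 0 < R := by
      rcases Nat.eq_zero_or_pos R with h0 | h0
      · rw [h0, mul_zero] at hR; omega
      · exact h0
    have h5 : (g s : ℤ) ∣ s.1 * V (Q * ∏ s ∈ S, g s) - s.2 :=
      (Int.natCast_dvd_natCast.2 ⟨R, hR⟩).trans h3
    have h6 : Q * ∏ s ∈ S, g s = g s * (Q * R) := by rw [hR]; ring
    rw [h6] at h5
    have h7 := hV (g s) (Q * R) (hg1 s) (Nat.mul_pos hQ hR0)
    apply hg2 s hs
    have h8 : s.1 * V (g s) - s.2 =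
        (s.1 * V (g s * (Q * R)) - s.2) - s.1 * (V (g s * (Q * R)) - V (g s)) := by ring
    rw [h8]
    exact dvd_sub h5 (Dvd.dvd.mul_left h7 _)
  obtain ⟨s, hs, h2⟩ := h1
  have hD := hS s hs
  obtain ⟨D, hDN⟩ : ∃ D : ℕ, (D : ℤ) = s.1 := ⟨s.1.toNat, Int.toNat_of_nonneg hD.le⟩
  have hD0 : 0 < D := by exact_mod_cast hDN ▸ hD
  have h3 : s.1 ∣ s.2 := by
    have h4 := h2 D hD0
    rw [hDN] at h4
    have h5 : s.2 = s.1 * V D - (s.1 * V D - s.2) := by ring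
    rw [h5]
    exact dvd_sub (dvd_mul_right _ _) h4
  obtain ⟨m, hm⟩ := h3
  refine ⟨s, hs, m, hm, fun N hN => ?_⟩
  have h4 := h2 (N * D) (Nat.mul_pos hN hD0)
  rw [hm, ← mul_sub, Nat.cast_mul, hDN, mul_comm (N : ℤ) s.1] at h4
  have h5 := (mul_dvd_mul_iff_left hD.ne').1 h4
  have h6 := hV N D hN hD0
  have h7 : V N - m = (V (N * D) - m) - (V (N * D) - V N) := by ring
  rw [h7]
  exact dvd_sub h5 h6

/-! ## valuations through norms -/

section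

variable {F : Type} [Field F] {p : ℕ} [Fact p.Prime]

/-- `‖J M x‖` behaves like `p ^ (-M v)` -/
def piv_Ev (J : ℕ → (RatFunc F →+* ℂ_[p])) (x : RatFunc F) (v : ℤ) : Prop :=
  ∃ C : ℝ, 0 < C ∧ ∃ M₀ : ℕ, ∀ M ≥ M₀, ‖J M x‖ = C * (p : ℝ) ^ (-((M : ℤ) * v))

theorem piv_p1 : (1 : ℝ) < p := by exact_mod_cast (Fact.out : p.Prime).one_lt

/-- logarithmic form -/
theorem piv_Ev_log {J : ℕ → (RatFunc F →+* ℂ_[p])} {x : RatFunc F} {v : ℤ} (h : piv_Ev J x v) :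
    ∃ c : ℝ, ∃ M₀ : ℕ, ∀ M ≥ M₀, Real.log ‖J M x‖ = c - M * v * Real.log p := by
  obtain ⟨C, hC, M₀, hM⟩ := h
  have hp : (0 : ℝ) < p := by linarith [piv_p1 (p := p)]
  refine ⟨Real.log C, M₀, fun M hM' => ?_⟩
  rw [hM M hM', Real.log_mul hC.ne' (zpow_ne_zero _ hp.ne'), Real.log_zpow]
  push_cast
  ring

theorem piv_Ev_unique {J : ℕ → (RatFunc F →+* ℂ_[p])} {x : RatFunc F} {v w : ℤ}
    (h : piv_Ev J x v) (h' : piv_Ev J x w) : v = w := by
  obtain ⟨c, M₁, h1⟩ := piv_Ev_log h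
  obtain ⟨c', M₂, h2⟩ := piv_Ev_log h'
  have hlog : 0 < Real.log p := Real.log_pos piv_p1
  have e1 := h1 (max M₁ M₂) (le_max_left _ _)
  have e2 := h2 (max M₁ M₂) (le_max_right _ _)
  have e3 := h1 (max M₁ M₂ + 1) ((le_max_left _ _).trans (Nat.le_succ _))
  have e4 := h2 (max M₁ M₂ + 1) ((le_max_right _ _).trans (Nat.le_succ _))
  rw [e1] at e2
  rw [e3] at e4
  rw [Nat.cast_add, Nat.cast_one] at e4
  have h5 : ((v : ℝ) - w) * Real.log p = 0 := by linear_combination e2 - e4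
  rcases mul_eq_zero.1 h5 with h6 | h6
  · have : (v : ℝ) = w := sub_eq_zero.1 h6
    exact_mod_cast this
  · exact absurd h6 hlog.ne'

theorem piv_Ev_mul {J : ℕ → (RatFunc F →+* ℂ_[p])} {x y : RatFunc F} {v w : ℤ}
    (h : piv_Ev J x v) (h' : piv_Ev J y w) : piv_Ev J (x * y) (v + w) := by
  obtain ⟨C, hC, M₁, h1⟩ := h
  obtain ⟨C', hC', M₂, h2⟩ := h'
  have hp : (p : ℝ) ≠ 0 := by linarith [piv_p1 (p := p)]
  refine ⟨C * C', by positivity, max M₁ M₂, fun M hM => ?_⟩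
  rw [map_mul, norm_mul, h1 M ((le_max_left _ _).trans hM), h2 M ((le_max_right _ _).trans hM),
    mul_add, neg_add, zpow_add₀ hp]
  ring

theorem piv_Ev_one {J : ℕ → (RatFunc F →+* ℂ_[p])} : piv_Ev J 1 0 :=
  ⟨1, one_pos, 0, fun M _ => by simp⟩

theorem piv_Ev_pow {J : ℕ → (RatFunc F →+* ℂ_[p])} {x : RatFunc F} {v : ℤ}
    (h : piv_Ev J x v) (n : ℕ) : piv_Ev J (x ^ n) (n * v) := by
  induction n with
  | zero => simpa using piv_Ev_one
  | succ n ih =>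
    rw [pow_succ]
    have := piv_Ev_mul ih h
    rw [Nat.cast_succ, add_mul, one_mul]
    exact this

theorem piv_exists (π : F[X]) (hπ : Irreducible π) (x : RatFunc F) (hx : x ≠ 0) :
    ∃ v : ℤ, UnitAt π (x * (algebraMap F[X] (RatFunc F) π) ^ (-v)) := by
  have hπ0 : algebraMap F[X] (RatFunc F) π ≠ 0 := by
    rw [Ne, map_eq_zero_iff _ (IsFractionRing.injective F[X] (RatFunc F))]
    exact hπ.ne_zero
  obtain ⟨A, hA, hA'⟩ := (FiniteMultiplicity.of_not_isUnit hπ.not_isUnit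
    (RatFunc.num_ne_zero hx)).exists_eq_pow_mul_and_not_dvd
  obtain ⟨B, hB, hB'⟩ := (FiniteMultiplicity.of_not_isUnit hπ.not_isUnit
    (RatFunc.denom_ne_zero x)).exists_eq_pow_mul_and_not_dvd
  refine ⟨(multiplicity π x.num : ℤ) - multiplicity π x.denom, A, B, hA', hB', ?_⟩
  have hd : algebraMap F[X] (RatFunc F) x.denom ≠ 0 := by
    rw [Ne, map_eq_zero_iff _ (IsFractionRing.injective F[X] (RatFunc F))]
    exact RatFunc.denom_ne_zero x
  have h1 : x * algebraMap F[X] (RatFunc F) x.denom = algebraMap F[X] (RatFunc F) x.num := by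
    have := RatFunc.num_div_denom x
    rw [div_eq_iff hd] at this
    exact this.symm
  rw [hA, hB, map_mul, map_mul, map_pow, map_pow] at h1
  have hBne : algebraMap F[X] (RatFunc F) π ^ multiplicity π x.denom ≠ 0 := pow_ne_zero _ hπ0
  have hAne : algebraMap F[X] (RatFunc F) π ^ multiplicity π x.num ≠ 0 := pow_ne_zero _ hπ0
  rw [neg_sub, zpow_sub₀ hπ0, zpow_natCast, zpow_natCast]
  have h2 : x * (algebraMap F[X] (RatFunc F) π ^ multiplicity π x.denom /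
      algebraMap F[X] (RatFunc F) π ^ multiplicity π x.num) * algebraMap F[X] (RatFunc F) B =
      (x * (algebraMap F[X] (RatFunc F) π ^ multiplicity π x.denom *
        algebraMap F[X] (RatFunc F) B)) / algebraMap F[X] (RatFunc F) π ^ multiplicity π x.num := by
    ring
  rw [h2, h1]
  field_simp

/-! ## Newton polygon -/

theorem piv_newton (Q : ℂ_[p][X]) (hQ : Q.coeff 0 ≠ 0) (Φ : ℂ_[p]) (hΦ : Q.eval Φ = 0) :
    ∃ i i' : ℕ, i < i' ∧ i' ≤ Q.natDegree ∧ Q.coeff i ≠ 0 ∧ Q.coeff i' ≠ 0 ∧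
      ‖Q.coeff i * Φ ^ i‖ = ‖Q.coeff i' * Φ ^ i'‖ := by
  classical
  obtain ⟨f, hf⟩ : ∃ f : ℕ → ℂ_[p], f = fun i => Q.coeff i * Φ ^ i := ⟨_, rfl⟩
  have hsum : ∑ i ∈ Finset.range (Q.natDegree + 1), f i = 0 := by
    rw [hf, ← eval_eq_sum_range]; exact hΦ
  obtain ⟨i₀, hi₀, hmax⟩ := Finset.exists_max_image (Finset.range (Q.natDegree + 1))
    (fun i => ‖f i‖) ⟨0, by simp⟩
  have hpos : 0 < ‖f i₀‖ := by
    have h1 := hmax 0 (by simp)
    have h2 : 0 < ‖f 0‖ := by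
      rw [hf]; simpa using hQ
    exact h2.trans_le h1
  obtain ⟨s, hs⟩ : ∃ s, s = (Finset.range (Q.natDegree + 1)).erase i₀ := ⟨_, rfl⟩
  have h3 : ∑ i ∈ s, f i = - f i₀ := by
    have := Finset.sum_erase_add (Finset.range (Q.natDegree + 1)) f hi₀
    rw [hsum, ← hs] at this
    linear_combination this
  have hne : s.Nonempty := by
    rw [Finset.nonempty_iff_ne_empty]
    intro h0
    rw [h0, Finset.sum_empty] at h3
    rw [neg_eq_zero.1 h3.symm, norm_zero] at hpos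
    exact lt_irrefl _ hpos
  obtain ⟨i₁, hi₁, hle⟩ := IsUltrametricDist.exists_norm_finsetSum_le_of_nonempty hne f
  rw [h3, norm_neg] at hle
  have hi₁' : i₁ ∈ (Finset.range (Q.natDegree + 1)).erase i₀ := hs ▸ hi₁
  rw [Finset.mem_erase] at hi₁'
  have heq : ‖f i₀‖ = ‖f i₁‖ := le_antisymm hle (hmax i₁ hi₁'.2)
  have hc : ∀ i, 0 < ‖f i‖ → Q.coeff i ≠ 0 := by
    intro i hi h0
    rw [hf] at hi
    simp only [h0, zero_mul, norm_zero] at hi
    exact lt_irrefl _ hi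
  have hc0 := hc i₀ hpos
  have hc1 := hc i₁ (heq ▸ hpos)
  rw [hf] at heq
  have b0 : i₀ ≤ Q.natDegree := by have := Finset.mem_range.1 hi₀; omega
  have b1 : i₁ ≤ Q.natDegree := by have := Finset.mem_range.1 hi₁'.2; omega
  rcases lt_or_gt_of_ne hi₁'.1 with h | h
  · exact ⟨i₁, i₀, h, b0, hc1, hc0, heq.symm⟩
  · exact ⟨i₀, i₁, h, b1, hc0, hc1, heq⟩

/-- the relation at one specialization -/
theorem piv_rel {j : RatFunc F →+* ℂ_[p]} {U : (RatFunc F)[X]} (hU : U.coeff 0 ≠ 0)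
    {Φ : ℂ_[p]} (hΦ0 : Φ ≠ 0) (hΦ : (U.map j).eval Φ = 0) :
    ∃ i i' : ℕ, i < i' ∧ i' ≤ U.natDegree ∧ U.coeff i ≠ 0 ∧ U.coeff i' ≠ 0 ∧
      ((i' : ℝ) - i) * Real.log ‖Φ‖ = Real.log ‖j (U.coeff i)‖ - Real.log ‖j (U.coeff i')‖ := by
  obtain ⟨i, i', h1, h2, h3, h4, h5⟩ := piv_newton (U.map j) (by
    rw [coeff_map]; exact (map_ne_zero j).2 hU) Φ hΦ
  rw [natDegree_map] at h2
  rw [coeff_map] at h3 h4
  rw [coeff_map, coeff_map, norm_mul, norm_mul, norm_pow, norm_pow] at h5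
  refine ⟨i, i', h1, h2, (map_ne_zero j).1 h3, (map_ne_zero j).1 h4, ?_⟩
  have hn : ‖Φ‖ ≠ 0 := norm_ne_zero_iff.2 hΦ0
  have h6 := congrArg Real.log h5
  rw [Real.log_mul (norm_ne_zero_iff.2 h3) (pow_ne_zero _ hn),
    Real.log_mul (norm_ne_zero_iff.2 h4) (pow_ne_zero _ hn), Real.log_pow, Real.log_pow] at h6
  linear_combination -h6

/-- divisibility for one `N` -/
theorem piv_one {J : ℕ → (RatFunc F →+* ℂ_[p])} {U : (RatFunc F)[X]} (hU : U.coeff 0 ≠ 0)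
    {V : RatFunc F → ℤ} (hV : ∀ x, x ≠ 0 → piv_Ev J x (V x)) {b : RatFunc F} (hb : b ≠ 0)
    {N d e : ℕ}
    (h : ∀ M, ∃ Φ w : ℂ_[p], Φ ≠ 0 ∧ (U.map (J M)).eval Φ = 0 ∧ w ≠ 0 ∧
      ‖J M b‖ = ‖Φ‖ * ‖w‖ ^ N ∧ ∃ k : ℤ, (‖w‖ ^ d) ^ e = (p : ℝ) ^ k) :
    ∃ i i' : ℕ, i < i' ∧ i' ≤ U.natDegree ∧ U.coeff i ≠ 0 ∧ U.coeff i' ≠ 0 ∧
      (N : ℤ) ∣ ((d * e * ((U.natDegree + 1) ^ 2).factorial : ℕ) : ℤ) *
        (((i' : ℤ) - i) * V b - (V (U.coeff i) - V (U.coeff i'))) := by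
  classical
  have hlog : 0 < Real.log p := Real.log_pos piv_p1
  -- asymptotics
  have hA : ∀ x : RatFunc F, ∃ c : ℝ, ∃ M₀ : ℕ, x ≠ 0 → ∀ M ≥ M₀,
      Real.log ‖J M x‖ = c - M * V x * Real.log p := by
    intro x
    by_cases hx : x = 0
    · exact ⟨0, 0, fun h => absurd hx h⟩
    · obtain ⟨c, M₀, hc⟩ := piv_Ev_log (hV x hx)
      exact ⟨c, M₀, fun _ => hc⟩
  choose c T hcT using hA
  -- relations
  have hR : ∀ M, ∃ i i' : ℕ, ∃ k : ℤ, i < i' ∧ i' ≤ U.natDegree ∧ U.coeff i ≠ 0 ∧ U.coeff i' ≠ 0 ∧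
      ((d * e : ℕ) : ℝ) * (((i' : ℝ) - i) * Real.log ‖J M b‖) =
        ((d * e : ℕ) : ℝ) * (Real.log ‖J M (U.coeff i)‖ - Real.log ‖J M (U.coeff i')‖) +
        N * (((i' : ℝ) - i) * (k * Real.log p)) := by
    intro M
    obtain ⟨Φ, w, h1, h2, h3, h4, k, hk⟩ := h M
    obtain ⟨i, i', g1, g2, g3, g4, g5⟩ := piv_rel hU h1 h2
    refine ⟨i, i', k, g1, g2, g3, g4, ?_⟩
    have hn : ‖Φ‖ ≠ 0 := norm_ne_zero_iff.2 h1
    have hw : ‖w‖ ≠ 0 := norm_ne_zero_iff.2 h3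
    have e1 : Real.log ‖J M b‖ = Real.log ‖Φ‖ + N * Real.log ‖w‖ := by
      rw [h4, Real.log_mul hn (pow_ne_zero _ hw), Real.log_pow]
    have e2 := congrArg Real.log hk
    rw [← pow_mul, Real.log_pow, Real.log_zpow] at e2
    rw [e1]
    linear_combination ((d * e : ℕ) : ℝ) * g5 + N * ((i' : ℝ) - i) * e2
  choose I I' K hR1 hR2 hR3 hR4 hR5 using hR
  -- pigeonhole
  obtain ⟨n, hn⟩ : ∃ n, n = U.natDegree := ⟨_, rfl⟩
  obtain ⟨P, hP⟩ : ∃ P, P = (n + 1) ^ 2 := ⟨_, rfl⟩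
  obtain ⟨M₁, hM₁⟩ : ∃ M₁, M₁ = T b + ∑ i ∈ Finset.range (n + 1), T (U.coeff i) := ⟨_, rfl⟩
  have hTb : T b ≤ M₁ := by omega
  have hTi : ∀ i ≤ n, T (U.coeff i) ≤ M₁ := by
    intro i hi
    have h1 : T (U.coeff i) ≤ ∑ i ∈ Finset.range (n + 1), T (U.coeff i) :=
      Finset.single_le_sum (f := fun i => T (U.coeff i)) (fun _ _ => Nat.zero_le _)
        (Finset.mem_range.2 (by omega))
    omega
  obtain ⟨t, ht, t', ht', hne, heq⟩ := Finset.exists_ne_map_eq_of_card_lt_of_maps_to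
    (s := Finset.range (P + 1)) (t := Finset.range (n + 1) ×ˢ Finset.range (n + 1))
    (f := fun t => (I (M₁ + t), I' (M₁ + t))) (by
      rw [Finset.card_product, Finset.card_range, Finset.card_range, hP]
      nlinarith) (by
      intro t _
      rw [Finset.mem_coe, Finset.mem_product, Finset.mem_range, Finset.mem_range]
      have h1 := hR1 (M₁ + t)
      have h2 := hR2 (M₁ + t)
      constructor
      · show I (M₁ + t) < n + 1
        omega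
      · show I' (M₁ + t) < n + 1
        omega)
  -- order the two indices
  obtain ⟨t, t', ht, ht', htt, heq⟩ : ∃ t t' : ℕ, t ∈ Finset.range (P + 1) ∧
      t' ∈ Finset.range (P + 1) ∧ t < t' ∧
      (I (M₁ + t), I' (M₁ + t)) = (I (M₁ + t'), I' (M₁ + t')) := by
    rcases lt_or_gt_of_ne hne with h | h
    · exact ⟨t, t', ht, ht', h, heq⟩
    · exact ⟨t', t, ht', ht, h, heq.symm⟩
  rw [Prod.mk.injEq] at heq
  have b1 := hR1 (M₁ + t)
  have b2 := hR2 (M₁ + t)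
  have b3 := hR3 (M₁ + t)
  have b4 := hR4 (M₁ + t)
  have b5 := hR5 (M₁ + t)
  have b5' := hR5 (M₁ + t')
  rw [← heq.1, ← heq.2] at b5'
  obtain ⟨i, hi⟩ : ∃ i, i = I (M₁ + t) := ⟨_, rfl⟩
  obtain ⟨i', hi'⟩ : ∃ i', i' = I' (M₁ + t) := ⟨_, rfl⟩
  rw [← hi, ← hi'] at b1 b5 b5'
  rw [← hi'] at b2 b4
  rw [← hi] at b3
  have hile : i ≤ n := by omega
  have hile' : i' ≤ n := by omega
  refine ⟨i, i', b1, b2, b3, b4, ?_⟩
  have a1 := hcT b hb (M₁ + t) (by omega)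
  have a2 := hcT b hb (M₁ + t') (by omega)
  have a3 := hcT (U.coeff i) b3 (M₁ + t) (by have := hTi i hile; omega)
  have a4 := hcT (U.coeff i) b3 (M₁ + t') (by have := hTi i hile; omega)
  have a5 := hcT (U.coeff i') b4 (M₁ + t) (by have := hTi i' hile'; omega)
  have a6 := hcT (U.coeff i') b4 (M₁ + t') (by have := hTi i' hile'; omega)
  rw [a1, a3, a5] at b5
  rw [a2, a4, a6] at b5'
  have key : ((d * e : ℕ) : ℝ) * (((t' : ℝ) - t) * (((i' : ℝ) - i) * V b -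
      (V (U.coeff i) - V (U.coeff i')))) =
      N * (((i' : ℝ) - i) * (K (M₁ + t) - K (M₁ + t'))) := by
    have h1 : (((d * e : ℕ) : ℝ) * (((t' : ℝ) - t) * (((i' : ℝ) - i) * V b -
      (V (U.coeff i) - V (U.coeff i')))) -
      N * (((i' : ℝ) - i) * (K (M₁ + t) - K (M₁ + t')))) * Real.log p = 0 := by
      push_cast at b5 b5' ⊢
      linear_combination b5 - b5'
    rcases mul_eq_zero.1 h1 with h2 | h2
    · exact sub_eq_zero.1 h2
    · exact absurd h2 hlog.ne'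
  have keyZ : ((d * e : ℕ) : ℤ) * (((t' : ℤ) - t) * (((i' : ℤ) - i) * V b -
      (V (U.coeff i) - V (U.coeff i')))) =
      N * (((i' : ℤ) - i) * (K (M₁ + t) - K (M₁ + t'))) := by exact_mod_cast key
  have hdvd : ((t' : ℤ) - t) ∣ (((U.natDegree + 1) ^ 2).factorial : ℤ) := by
    have h1 : (t' - t) ∣ ((U.natDegree + 1) ^ 2).factorial := by
      refine Nat.dvd_factorial (by omega) ?_
      rw [Finset.mem_range] at ht'
      rw [← hn, ← hP]
      omega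
    have h2 : ((t' - t : ℕ) : ℤ) = (t' : ℤ) - t := by push_cast [htt.le]; rfl
    rw [← h2]
    exact_mod_cast h1
  obtain ⟨r, hr⟩ := hdvd
  rw [Nat.cast_mul, hr]
  refine ⟨r * (((i' : ℤ) - i) * (K (M₁ + t) - K (M₁ + t'))), ?_⟩
  linear_combination r * keyZ

end

theorem piv_main {F : Type} [Field F] [CharZero F] (hEMB : ST_EMB) (hEFIN : ST_EFIN)
    (hFG : (⊤ : IntermediateField ℚ F).FG)
    (b : ℕ → RatFunc F) (U : Polynomial (RatFunc F)) (hb : Cls b) (hU : U.eval 0 ≠ 0)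
    (hL : LocC b U) (π : Polynomial F) (hπ : Irreducible π) : ∃ m : ℤ,
      (∀ N : ℕ, 0 < N → ∃ s : ℤ,
        UnitAt π (b N * (algebraMap (Polynomial F) (RatFunc F) π) ^ (-(m + N * s)))) ∧
      ((∀ i, U.coeff i ≠ 0 → UnitAt π (U.coeff i)) → m = 0) := by
  classical
  have hp2 : Fact (Nat.Prime 2) := ⟨Nat.prime_two⟩
  obtain ⟨E, J, hEf, hJE, hJ⟩ := piv_fam (p := 2) hEMB hFG π hπ
  obtain ⟨e, _, he, _, hE⟩ := hEFIN 2 E hEf
  obtain ⟨d, hd, hL2⟩ := hL 2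
  have hU0 : U.coeff 0 ≠ 0 := by rwa [← coeff_zero_eq_eval_zero] at hU
  have hVex : ∀ x : RatFunc F, ∃ v : ℤ, x ≠ 0 →
      UnitAt π (x * (algebraMap F[X] (RatFunc F) π) ^ (-v)) := by
    intro x
    by_cases hx : x = 0
    · exact ⟨0, fun h => absurd hx h⟩
    · obtain ⟨v, hv⟩ := piv_exists π hπ x hx
      exact ⟨v, fun _ => hv⟩
  choose V hV using hVex
  have hEv : ∀ x, x ≠ 0 → piv_Ev J x (V x) := fun x hx => hJ x (V x) hx (hV x hx)
  -- compatibility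
  have hVc : ∀ N M : ℕ, 0 < N → 0 < M → (N : ℤ) ∣ V (b (N * M)) - V (b N) := by
    intro N M hN hM
    obtain ⟨t, ht⟩ := hb.2 N M hN hM
    have h1 : b (N * M) ≠ 0 := hb.1 _ (Nat.mul_pos hN hM)
    have h2 : b N ≠ 0 := hb.1 _ hN
    have ht0 : t ≠ 0 := by
      rintro rfl
      rw [zero_pow hN.ne', mul_zero] at ht
      exact h1 ht
    have h3 : piv_Ev J (b (N * M)) (V (b N) + N * V t) := by
      rw [ht]
      exact piv_Ev_mul (hEv _ h2) (piv_Ev_pow (hEv t ht0) N)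
    have h4 := piv_Ev_unique (hEv _ h1) h3
    rw [h4]
    exact ⟨V t, by ring⟩
  -- the finite set of slopes
  obtain ⟨S, hS⟩ : ∃ S : Finset (ℤ × ℤ), S =
      ((Finset.range (U.natDegree + 1) ×ˢ Finset.range (U.natDegree + 1)).filter
        (fun q => q.1 < q.2 ∧ U.coeff q.1 ≠ 0 ∧ U.coeff q.2 ≠ 0)).image
        (fun q => ((q.2 : ℤ) - q.1, V (U.coeff q.1) - V (U.coeff q.2))) := ⟨_, rfl⟩
  have hSpos : ∀ s ∈ S, 0 < s.1 := by
    intro s hs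
    rw [hS, Finset.mem_image] at hs
    obtain ⟨q, hq, rfl⟩ := hs
    rw [Finset.mem_filter] at hq
    have := hq.2.1
    show (0 : ℤ) < (q.2 : ℤ) - q.1
    omega
  obtain ⟨Q, hQ⟩ : ∃ Q : ℕ, Q = d * e * ((U.natDegree + 1) ^ 2).factorial := ⟨_, rfl⟩
  have hQpos : 0 < Q := by
    rw [hQ]
    exact Nat.mul_pos (Nat.mul_pos hd he) (Nat.factorial_pos _)
  have hstep : ∀ N : ℕ, 0 < N → ∃ s ∈ S, (N : ℤ) ∣ Q * (s.1 * V (b N) - s.2) := by
    intro N hN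
    have hbN := hb.1 N hN
    obtain ⟨i, i', h1, h2, h3, h4, h5⟩ := piv_one (N := N) hU0 hEv hbN (d := d) (e := e) (by
      intro M
      obtain ⟨Φ, hΦ0, hΦ, E', _, hw⟩ := hL2 (J M) E hEf (hJE M)
      obtain ⟨y, _, w, _, hyw, hy, w₁, hw₁E, hw₁⟩ := hw N hN ‖Φ‖ (norm_pos_iff.2 hΦ0)
      have hJb : J M (b N) ≠ 0 := (_root_.map_ne_zero (J M)).2 hbN
      have hw0 : w ≠ 0 := by
        rintro rfl
        rw [zero_pow hN.ne', mul_zero] at hyw
        exact hJb hyw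
      have hw₁0 : w₁ ≠ 0 := by
        rintro rfl
        rw [norm_zero] at hw₁
        exact pow_ne_zero d (norm_ne_zero_iff.2 hw0) hw₁
      obtain ⟨⟨k, hk⟩, _⟩ := hE w₁ hw₁E hw₁0
      refine ⟨Φ, w, hΦ0, hΦ, hw0, ?_, k, ?_⟩
      · rw [hyw, norm_mul, norm_pow, piv_norm_eq hy]
      · rw [hw₁]; exact hk)
    refine ⟨((i' : ℤ) - i, V (U.coeff i) - V (U.coeff i')), ?_, ?_⟩
    · rw [hS, Finset.mem_image]
      refine ⟨(i, i'), ?_, rfl⟩
      rw [Finset.mem_filter, Finset.mem_product, Finset.mem_range, Finset.mem_range]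
      exact ⟨⟨by omega, by omega⟩, h1, h3, h4⟩
    · rw [hQ]; exact h5
  obtain ⟨s, hs, m, hm, hfin⟩ := piv_arith (fun N => V (b N)) hVc S hSpos Q hQpos hstep
  refine ⟨m, fun N hN => ?_, fun hunit => ?_⟩
  · obtain ⟨r, hr⟩ := hfin N hN
    refine ⟨r, ?_⟩
    have h1 : m + N * r = V (b N) := by
      have : V (b N) - m = N * r := hr
      linarith
    rw [h1]
    exact hV _ (hb.1 N hN)
  · rw [hS, Finset.mem_image] at hs
    obtain ⟨q, hq, rfl⟩ := hs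
    rw [Finset.mem_filter] at hq
    have hzero : ∀ i, U.coeff i ≠ 0 → V (U.coeff i) = 0 := by
      intro i hi
      have h1 : UnitAt π (U.coeff i * (algebraMap F[X] (RatFunc F) π) ^ (-(0 : ℤ))) := by
        rw [neg_zero, zpow_zero, mul_one]
        exact hunit i hi
      exact piv_Ev_unique (hEv _ hi) (hJ _ 0 hi h1)
    have h1 : V (U.coeff q.1) - V (U.coeff q.2) = ((q.2 : ℤ) - q.1) * m := hm
    rw [hzero _ hq.2.2.1, hzero _ hq.2.2.2, sub_zero] at h1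
    have h2 : ((q.2 : ℤ) - q.1) ≠ 0 := by
      have := hq.2.1
      omega
    rcases mul_eq_zero.1 h1.symm with h3 | h3
    · exact absurd h3 h2
    · exact h3

theorem st_PIV (hEMB : ST_EMB) (hEFIN : ST_EFIN) : ST_PIV := by
  intro F _ _ hFG b U hb hU hL π hπ
  exact piv_main hEMB hEFIN hFG b U hb hU hL π hπ

end Pool.Agent.Helper14.BSC
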