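import Pool.Agent.Helper14.BSC.Stmts

/-!
# Module DEEP: deep one-units are units of `FF S₁` times `p`-th powers
-/

set_option autoImplicit false

namespace Pool.Agent.Helper14.BSC

theorem deep_pow_one {Γ : Type} [LinearOrderedCommGroupWithZero Γ] {x : Γ} {n : ℕ} (hn : n ≠ 0)
    (h : x ^ n = 1) : x = 1 := by
  rcases pow_eq_one_iff.1 h with h | h
  · exact h
  · exact absurd h hn

theorem deep_iter {N : Type} [Field N] (T : N →+* N) (n : ℕ) (x y : N) :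
    T^[n] (x / y) = T^[n] x / T^[n] y := by
  induction n generalizing x y with
  | zero => rfl
  | succ n ih => rw [Function.iterate_succ_apply, map_div₀, ih]; rfl

/-- quotients of conjugates are integral -/
theorem deep_quot {N : Type} [Field N] (O : ValuationSubring N) (T : N →+* N) (p : ℕ) (hp : 0 < p)
    (hTp : ∀ x, T^[p] x = x) (hT : ∀ x ∈ O, T x ∈ O) (x : N) (hx : x ≠ 0) : T x / x ∈ O := by
  by_contra hcon
  have hTn : ∀ n : ℕ, ∀ w ∈ O, T^[n] w ∈ O := by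
    intro n
    induction n with
    | zero => intro w hw; exact hw
    | succ n ih => intro w hw; rw [Function.iterate_succ_apply]; exact ih _ (hT w hw)
  have h1 : ∀ i ≤ p, T^[i] (T x / x) ∉ O := by
    intro i hi hmem
    have h2 := hTn (p - i) _ hmem
    rw [← Function.iterate_add_apply, Nat.sub_add_cancel hi, hTp] at h2
    exact hcon h2
  have h3 : ∏ i ∈ Finset.range p, T^[i] (T x / x) = 1 := by
    have h4 : ∀ i, T^[i] (T x / x) = T^[i + 1] x / T^[i] x := by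
      intro i
      rw [deep_iter, ← Function.iterate_succ_apply]
    have h5 : ∏ i ∈ Finset.range p, T^[i] (T x / x) =
        ∏ i ∈ Finset.range p, (T^[i + 1] x / T^[i] x) := Finset.prod_congr rfl fun i _ => h4 i
    have hTne : ∀ i, T^[i] x ≠ 0 := by
      intro i
      induction i with
      | zero => exact hx
      | succ i ih => rw [Function.iterate_succ_apply']; exact (map_ne_zero T).2 ih
    have h6 : ∀ n : ℕ, ∏ i ∈ Finset.range n, (T^[i + 1] x / T^[i] x) = T^[n] x / x := by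
      intro n
      induction n with
      | zero => simp [hx]
      | succ n ih =>
        rw [Finset.prod_range_succ, ih]
        have := hTne n
        field_simp
    rw [h5, h6, hTp, div_self hx]
  have h7 : ∀ n : ℕ, 0 < n → n ≤ p → 1 < O.valuation (∏ i ∈ Finset.range n, T^[i] (T x / x)) := by
    intro n
    induction n with
    | zero => intro h; exact absurd h (lt_irrefl _)
    | succ n ih =>
      intro _ hn
      have h8 : 1 < O.valuation (T^[n] (T x / x)) := by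
        rw [← not_le, O.valuation_le_one_iff]
        exact h1 n (by omega)
      rw [Finset.prod_range_succ, map_mul]
      rcases Nat.eq_zero_or_pos n with h0 | h0
      · subst h0
        simpa using h8
      · exact one_lt_mul_of_lt_of_le' (ih h0 (by omega)) h8.le
  have h9 := h7 p hp le_rfl
  rw [h3, map_one] at h9
  exact lt_irrefl _ h9

theorem deep_abs {N : Type} [Field N] (O : ValuationSubring N) (T : N →+* N) (p : ℕ) (hp : 1 < p)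
    (hTp : ∀ x, T^[p] x = x) (hT : ∀ x ∈ O, T x ∈ O) (ζ α : N) (hζ : IsPrimitiveRoot ζ p)
    (hζT : T ζ = ζ) (hα : T α = ζ * α) (hv : O.valuation α = 1) :
    α ^ p ≠ 1 ∧ (ζ - 1) ^ p / (1 - α ^ p) ∈ O := by
  classical
  have hp0 : 0 < p := by omega
  have : NeZero p := ⟨hp0.ne'⟩
  have hα0 : α ≠ 0 := by
    rintro rfl
    rw [map_zero] at hv
    exact zero_ne_one hv
  have hζ1 : ζ ≠ 1 := hζ.ne_one hp
  have hne : α ^ p ≠ 1 := by
    intro h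
    obtain ⟨i, _, hi⟩ := hζ.eq_pow_of_pow_eq_one h
    have h1 : T α = α := by rw [← hi, map_pow, hζT]
    rw [hα] at h1
    exact hζ1 (mul_right_cancel₀ hα0 (by rw [h1, one_mul]))
  refine ⟨hne, ?_⟩
  have hprod := hζ.pow_sub_pow_eq_prod_sub_mul 1 α hp0
  rw [one_pow] at hprod
  have hprod0 : ∏ η ∈ Polynomial.nthRootsFinset p (1 : N), (1 - η * α) ≠ 0 := by
    rw [← hprod, sub_ne_zero]
    exact hne.symm
  have hfac : ∀ η ∈ Polynomial.nthRootsFinset p (1 : N), (ζ - 1) / (1 - η * α) ∈ O := by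
    intro η hη
    have hb0 : 1 - η * α ≠ 0 := fun h => hprod0 (Finset.prod_eq_zero hη h)
    rw [Polynomial.mem_nthRootsFinset hp0] at hη
    obtain ⟨i, _, hi⟩ := hζ.eq_pow_of_pow_eq_one hη
    have hηT : T η = η := by rw [← hi, map_pow, hζT]
    have hη0 : η ≠ 0 := by
      rintro rfl
      rw [zero_pow hp0.ne'] at hη
      exact zero_ne_one hη
    have hηv : O.valuation η = 1 := by
      have : O.valuation η ^ p = 1 := by rw [← map_pow, hη, map_one]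
      exact deep_pow_one hp0.ne' this
    have h1 : (ζ - 1) / (1 - η * α) = (1 - T (1 - η * α) / (1 - η * α)) / (η * α) := by
      rw [map_sub, map_one, map_mul, hηT, hα]
      field_simp
      ring
    rw [h1, ← O.valuation_le_one_iff, map_div₀, map_mul, hηv, hv, one_mul, div_one,
      O.valuation_le_one_iff]
    exact sub_mem O.one_mem (deep_quot O T p hp0 hTp hT _ hb0)
  have h2 : (ζ - 1) ^ p / (1 - α ^ p) =
      ∏ η ∈ Polynomial.nthRootsFinset p (1 : N), ((ζ - 1) / (1 - η * α)) := by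
    rw [Finset.prod_div_distrib, Finset.prod_const, hζ.card_nthRootsFinset, ← hprod]
  rw [h2]
  exact prod_mem hfac

theorem deep_stab {k Ω : Type} [Field k] [Field Ω] [Algebra k Ω] {S : Set (Acl k Ω)}
    {ϖ : Acl k Ω} : Stab (S ∪ {ϖ}) ≤ Stab S := fun _ hg a ha => hg a (Or.inl ha)

theorem st_DEEP (hK : ST_KUM) (hG : ST_GD2) : ST_DEEP := by
  intro k Ω _ _ _ _ _ D p _ Lc O₁ hTame z hz
  have hpp : p.Prime := Fact.out
  have hp0 : 0 < p := hpp.pos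
  obtain ⟨hOver, hTV⟩ := hTame
  -- `z`
  have hz0 : z ≠ 0 := by
    rintro rfl
    rw [div_zero] at hz
    exact hz O₁.zero_mem
  have hζO : inc D Lc.S₁ ⟨Lc.ζ, Lc.memζ⟩ ∈ O₁ := by
    rw [← O₁.valuation_le_one_iff]
    have h1 : inc D Lc.S₁ ⟨Lc.ζ, Lc.memζ⟩ ^ p = 1 := by
      rw [← map_pow]
      have : (⟨Lc.ζ, Lc.memζ⟩ : FF Lc.S₁) ^ p = 1 := Subtype.ext Lc.prim.pow_eq_one
      rw [this, map_one]
    have h2 : O₁.valuation (inc D Lc.S₁ ⟨Lc.ζ, Lc.memζ⟩) ^ p = 1 := by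
      rw [← map_pow, h1, map_one]
    exact (deep_pow_one hp0.ne' h2).le
  have hlam : lamN D Lc = inc D Lc.S₁ ⟨Lc.ζ, Lc.memζ⟩ - 1 := by
    unfold lamN
    rw [← map_one (inc D Lc.S₁), ← map_sub]
    rfl
  have hlamO : lamN D Lc ∈ O₁ := by
    rw [hlam]
    exact sub_mem hζO O₁.one_mem
  have hzv : O₁.valuation z < 1 := by
    rw [← O₁.valuation_le_one_iff, not_le, map_div₀] at hz
    have hzv0 : 0 < O₁.valuation z := zero_lt_iff.2 ((Valuation.ne_zero_iff _).2 hz0)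
    have h1 : O₁.valuation (lamN D Lc ^ p) ≤ 1 := by
      rw [O₁.valuation_le_one_iff]
      exact pow_mem hlamO p
    rw [one_lt_div₀ hzv0] at hz
    exact hz.trans_le h1
  have h1z : O₁.valuation (1 + z) = 1 := O₁.valuation.map_one_add_of_lt hzv
  have h1z0 : 1 + z ≠ 0 := by
    intro h
    rw [h, map_zero] at h1z
    exact zero_ne_one h1z
  -- Kummer class of `1 + z`
  obtain ⟨c, hc0, g, hg0, hcg⟩ := hK k Ω D Lc.S₁ p hp0 (1 + z) h1z0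
  have hπ0 : (⟨Lc.π, Lc.memπ⟩ : FF Lc.S₁) ≠ 0 := by
    intro h
    have h1 : Lc.π = 0 := congrArg Subtype.val h
    have h2 := Lc.posπ
    rw [h1, map_zero, norm_zero] at h2
    exact lt_irrefl _ h2
  obtain ⟨π₁, hπ₁⟩ : ∃ π₁ : FF Lc.S₁, π₁ = ⟨Lc.π, Lc.memπ⟩ := ⟨_, rfl⟩
  rw [← hπ₁] at hπ0
  have hnπ : nm Lc (π₁ : Acl k Ω) ≠ 0 := by
    rw [hπ₁]; exact Lc.posπ.ne'
  obtain ⟨j, hj⟩ := Lc.disc c c.2 fun h => hc0 (Subtype.ext h)
  have hnmul : ∀ x y : Acl k Ω, nm Lc (x * y) = nm Lc x * nm Lc y := fun x y => by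
    unfold nm; rw [map_mul, norm_mul]
  have hnzpow : ∀ (x : Acl k Ω) (n : ℤ), nm Lc (x ^ n) = nm Lc x ^ n := fun x n => by
    unfold nm; rw [map_zpow₀, norm_zpow]
  obtain ⟨c₁, hc₁⟩ : ∃ c₁ : FF Lc.S₁, c₁ = c / π₁ ^ j := ⟨_, rfl⟩
  have hcc : c = π₁ ^ j * c₁ := by
    rw [hc₁, mul_div_cancel₀ _ (zpow_ne_zero j hπ0)]
  have hc₁n : nm Lc (c₁ : Acl k Ω) = 1 := by
    have h1 : nm Lc (c : Acl k Ω) = nm Lc (π₁ : Acl k Ω) ^ j * nm Lc (c₁ : Acl k Ω) := by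
      rw [← hnzpow, ← hnmul, hcc]
      rfl
    have h2 : nm Lc (c : Acl k Ω) = nm Lc (π₁ : Acl k Ω) ^ j := by
      rw [hπ₁]; exact hj
    rw [h2] at h1
    have h3 : nm Lc (π₁ : Acl k Ω) ^ j ≠ 0 := zpow_ne_zero _ hnπ
    exact (mul_left_cancel₀ h3 (by rw [mul_one]; exact h1)).symm
  by_cases hpj : (p : ℤ) ∣ j
  · obtain ⟨m, hm⟩ := hpj
    refine ⟨c₁, hc₁n, inc D Lc.S₁ π₁ ^ m * g, ?_⟩
    rw [hcg, hcc, map_mul, map_zpow₀, mul_pow, hm, ← zpow_natCast (inc D Lc.S₁ π₁ ^ m) p,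
      ← zpow_mul, mul_comm m (p : ℤ)]
    ring
  exfalso
  -- exponents
  obtain ⟨a, b, hab⟩ : IsCoprime j (p : ℤ) := by
    rw [Int.isCoprime_iff_gcd_eq_one, Int.gcd_comm]
    exact (Nat.Prime.coprime_iff_not_dvd hpp).2 fun h => hpj (Int.natCast_dvd.2 h)
  obtain ⟨i, hi0, m, him⟩ : ∃ i : ℕ, 0 < i ∧ ∃ m : ℤ, (i : ℤ) * j = 1 + p * m := by
    have hpos : 0 < a + p * (|a| + 1) := by
      have h2 : (2 : ℤ) ≤ p := by exact_mod_cast hpp.two_le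
      nlinarith [neg_abs_le a, abs_nonneg a]
    refine ⟨(a + p * (|a| + 1)).toNat, by omega, (|a| + 1) * j - b, ?_⟩
    rw [Int.toNat_of_nonneg hpos.le]
    linear_combination hab
  -- `(1+z)^i`
  obtain ⟨c₀, hc₀⟩ : ∃ c₀ : FF Lc.S₁, c₀ = c₁ ^ i := ⟨_, rfl⟩
  obtain ⟨g', hg'⟩ : ∃ g' : NN D Lc.S₁, g' = inc D Lc.S₁ π₁ ^ m * g ^ i := ⟨_, rfl⟩
  have hpow : (1 + z) ^ i = inc D Lc.S₁ π₁ * inc D Lc.S₁ c₀ * g' ^ p := by
    have hπN : inc D Lc.S₁ π₁ ≠ 0 := (map_ne_zero _).2 hπ0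
    have e1 : (inc D Lc.S₁ π₁ ^ j) ^ i = inc D Lc.S₁ π₁ * (inc D Lc.S₁ π₁ ^ m) ^ p := by
      rw [← zpow_natCast (inc D Lc.S₁ π₁ ^ j) i, ← zpow_mul, mul_comm j (i : ℤ), him,
        zpow_add₀ hπN, zpow_one, ← zpow_natCast (inc D Lc.S₁ π₁ ^ m) p, ← zpow_mul,
        mul_comm m (p : ℤ)]
    rw [hcg, hcc, hc₀, hg', map_mul, map_zpow₀, map_pow, mul_pow, mul_pow, mul_pow, e1]
    ring
  have hc₀n : nm Lc (c₀ : Acl k Ω) = 1 := by
    have : nm Lc (c₀ : Acl k Ω) = nm Lc (c₁ : Acl k Ω) ^ i := by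
      rw [hc₀]
      unfold nm
      rw [← norm_pow, ← map_pow]
      rfl
    rw [this, hc₁n, one_pow]
  -- the root `ϖ`
  have hAC : IsAlgClosed (Acl k Ω) := (algebraicClosure.isAlgClosure k Ω).isAlgClosed
  obtain ⟨ϖ, hϖ⟩ := IsAlgClosed.exists_pow_nat_eq (Lc.π * (c₀ : Acl k Ω)) hp0
  obtain ⟨O₂, hO₂, hinv⟩ := hTV c₀ ϖ c₀.2 hc₀n hϖ
  obtain ⟨-, τ, hτ, hτϖ⟩ := hG k Ω p Lc c₀ ϖ c₀.2 hc₀n hϖ
  have hle : NN D Lc.S₁ ≤ NN D (Lc.S₁ ∪ {ϖ}) := NN_le D deep_stab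
  have hTmem : ∀ x : NN D (Lc.S₁ ∪ {ϖ}), D.s τ x ∈ NN D (Lc.S₁ ∪ {ϖ}) := by
    intro x
    rcases O₂.mem_or_inv_mem x with h | h
    · exact (hinv τ hτ x h).1
    · have h1 := (hinv τ hτ _ h).1
      have h2 : D.s τ ((x⁻¹ : NN D (Lc.S₁ ∪ {ϖ})) : Ω) = (D.s τ x)⁻¹ := by
        rw [← map_inv₀]; rfl
      rw [h2] at h1
      have h3 := inv_mem h1
      rwa [inv_inv] at h3
  let T : NN D (Lc.S₁ ∪ {ϖ}) →+* NN D (Lc.S₁ ∪ {ϖ}) :=
    { toFun := fun x => ⟨D.s τ x, hTmem x⟩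
      map_one' := Subtype.ext (map_one _)
      map_mul' := fun x y => Subtype.ext (map_mul _ _ _)
      map_zero' := Subtype.ext (map_zero _)
      map_add' := fun x y => Subtype.ext (map_add _ _ _) }
  have hTcoe : ∀ x : NN D (Lc.S₁ ∪ {ϖ}), ((T x : NN D (Lc.S₁ ∪ {ϖ})) : Ω) = D.s τ x := fun _ => rfl
  have hTn : ∀ (n : ℕ) (x : NN D (Lc.S₁ ∪ {ϖ})),
      ((T^[n] x : NN D (Lc.S₁ ∪ {ϖ})) : Ω) = D.s (τ ^ n) x := by
    intro n
    induction n with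
    | zero => intro x; rw [pow_zero, map_one]; rfl
    | succ n ih =>
      intro x
      rw [Function.iterate_succ_apply, ih, hTcoe, pow_succ, map_mul]
      rfl
  have hτζ : τ Lc.ζ = Lc.ζ := Lc.memζ τ hτ
  have hτn : ∀ n : ℕ, (τ ^ n) ϖ = Lc.ζ ^ n * ϖ := by
    intro n
    induction n with
    | zero => simp
    | succ n ih =>
      rw [pow_succ', AlgEquiv.mul_apply, ih, map_mul, map_pow, hτζ, hτϖ, pow_succ]
      ring
  have hτp : τ ^ p ∈ Stab (Lc.S₁ ∪ {ϖ}) := by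
    rintro x (hx | hx)
    · exact (pow_mem hτ p) x hx
    · rw [Set.mem_singleton_iff] at hx
      rw [hx, hτn, Lc.prim.pow_eq_one, one_mul]
  have hTp : ∀ x, T^[p] x = x := by
    intro x
    apply Subtype.ext
    rw [hTn]
    exact x.2 _ hτp
  have hT : ∀ x ∈ O₂, T x ∈ O₂ := by
    intro x hx
    obtain ⟨h1, h2⟩ := hinv τ hτ x hx
    exact h2
  -- elements of the big field
  let ζ₂ : NN D (Lc.S₁ ∪ {ϖ}) := ⟨(Lc.ζ : Ω), hle (coe_mem_NN.2 Lc.memζ)⟩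
  let ϖ₂ : NN D (Lc.S₁ ∪ {ϖ}) := ⟨(ϖ : Ω), coe_mem_NN.2 (subset_FF _ (Or.inr rfl))⟩
  let g₂ : NN D (Lc.S₁ ∪ {ϖ}) := ⟨(g' : Ω), hle g'.2⟩
  let u₂ : NN D (Lc.S₁ ∪ {ϖ}) := ⟨(((1 + z) ^ i : NN D Lc.S₁) : Ω), hle ((1 + z) ^ i).2⟩
  have hζ₂ : IsPrimitiveRoot ζ₂ p := by
    have h1 : IsPrimitiveRoot ((Lc.ζ : Acl k Ω) : Ω) p :=
      Lc.prim.map_of_injective (f := (Acl k Ω).val) (Acl k Ω).val.injective
    exact h1.of_map_of_injective (f := (NN D (Lc.S₁ ∪ {ϖ})).val) (NN D (Lc.S₁ ∪ {ϖ})).val.injective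
  have hα : (ϖ₂ * g₂) ^ p = u₂ := by
    apply Subtype.ext
    show ((ϖ : Ω) * (g' : Ω)) ^ p = (((1 + z) ^ i : NN D Lc.S₁) : Ω)
    rw [hpow, mul_pow]
    have h1 : (ϖ : Ω) ^ p = (Lc.π : Ω) * ((c₀ : Acl k Ω) : Ω) := by
      have := congrArg (fun t : Acl k Ω => (t : Ω)) hϖ
      simpa using this
    rw [h1, hπ₁]
    rfl
  have huO : O₂.valuation u₂ = 1 := by
    have h1 : O₁.valuation ((1 + z) ^ i) = 1 := by rw [map_pow, h1z, one_pow]
    have h2 : (1 + z) ^ i ∈ O₁ := by rw [← O₁.valuation_le_one_iff, h1]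
    have h3 : ((1 + z) ^ i)⁻¹ ∈ O₁ := by rw [← O₁.valuation_le_one_iff, map_inv₀, h1, inv_one]
    have h4 : u₂ ∈ O₂ := (hO₂ _ (hle ((1 + z) ^ i).2)).2 h2
    have h5 : u₂⁻¹ ∈ O₂ := (hO₂ _ (hle (((1 + z) ^ i)⁻¹).2)).2 h3
    have h6 := (O₂.valuation_le_one_iff _).2 h4
    have h7 := (O₂.valuation_le_one_iff _).2 h5
    rw [map_inv₀] at h7
    have hu0 : u₂ ≠ 0 := by
      intro h
      have : ((1 + z) ^ i : NN D Lc.S₁) = 0 := Subtype.ext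
        (show (((1 + z) ^ i : NN D Lc.S₁) : Ω) = ((0 : NN D Lc.S₁) : Ω) from
          congrArg (fun t : NN D (Lc.S₁ ∪ {ϖ}) => (t : Ω)) h)
      exact pow_ne_zero i h1z0 this
    have h8 : 0 < O₂.valuation u₂ := zero_lt_iff.2 ((Valuation.ne_zero_iff _).2 hu0)
    exact le_antisymm h6 ((inv_le_one₀ h8).1 h7)
  have hαv : O₂.valuation (ϖ₂ * g₂) = 1 := by
    have h1 : O₂.valuation (ϖ₂ * g₂) ^ p = 1 := by rw [← map_pow, hα, huO]
    exact deep_pow_one hp0.ne' h1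
  have hTζ : T ζ₂ = ζ₂ := by
    apply Subtype.ext
    show D.s τ ((Lc.ζ : Acl k Ω) : Ω) = ((Lc.ζ : Acl k Ω) : Ω)
    rw [D.ext, hτζ]
  have hTα : T (ϖ₂ * g₂) = ζ₂ * (ϖ₂ * g₂) := by
    apply Subtype.ext
    show D.s τ ((ϖ : Ω) * (g' : Ω)) = (Lc.ζ : Ω) * ((ϖ : Ω) * (g' : Ω))
    rw [map_mul, D.ext, hτϖ, g'.2 τ hτ]
    push_cast
    ring
  obtain ⟨hne, hmem⟩ := deep_abs O₂ T p hpp.one_lt hTp hT ζ₂ (ϖ₂ * g₂) hζ₂ hTζ hTα hαv
  rw [hα] at hne hmem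
  -- back to `O₁`
  have hmem1 : lamN D Lc ^ p / (1 - (1 + z) ^ i) ∈ O₁ := by
    have h1 : ((lamN D Lc ^ p / (1 - (1 + z) ^ i) : NN D Lc.S₁) : Ω) ∈ NN D (Lc.S₁ ∪ {ϖ}) :=
      hle (lamN D Lc ^ p / (1 - (1 + z) ^ i)).2
    refine (hO₂ _ h1).1 ?_
    have h2 : (⟨_, h1⟩ : NN D (Lc.S₁ ∪ {ϖ})) = (ζ₂ - 1) ^ p / (1 - u₂) := by
      apply Subtype.ext
      show ((lamN D Lc ^ p / (1 - (1 + z) ^ i) : NN D Lc.S₁) : Ω) = _
      rw [hlam]
      rfl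
    rw [h2]
    exact hmem
  have hne1 : (1 + z) ^ i ≠ 1 := by
    intro h
    apply hne
    apply Subtype.ext
    show (((1 + z) ^ i : NN D Lc.S₁) : Ω) = 1
    rw [h]
    rfl
  have hgeo : (1 - (1 + z) ^ i) / z ∈ O₁ := by
    have h1 : (∑ t ∈ Finset.range i, (1 + z) ^ t) * (1 + z - 1) = (1 + z) ^ i - 1 :=
      geom_sum_mul (1 + z) i
    have h2 : (1 - (1 + z) ^ i) / z = -∑ t ∈ Finset.range i, (1 + z) ^ t := by
      rw [div_eq_iff hz0]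
      linear_combination h1
    rw [h2]
    refine neg_mem (sum_mem fun t _ => pow_mem ?_ t)
    rw [← O₁.valuation_le_one_iff, h1z]
  apply hz
  have h3 : lamN D Lc ^ p / z =
      (lamN D Lc ^ p / (1 - (1 + z) ^ i)) * ((1 - (1 + z) ^ i) / z) := by
    have h4 : 1 - (1 + z) ^ i ≠ 0 := sub_ne_zero.2 hne1.symm
    field_simp
  rw [h3]
  exact O₁.mul_mem _ _ hmem1 hgeo

end Pool.Agent.Helper14.BSC
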