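import Pool.Agent.Helper14.BSC.Stmts2

/-!
# Module PIV, part 1: specialization at transcendental points near a root of `π`
-/

set_option autoImplicit false

namespace Pool.Agent.Helper14.BSC

open Polynomial Filter Topology

/-- finitely generated fields over `ℚ` are countable -/
theorem piv_countable (F : Type) [Field F] [CharZero F] (h : (⊤ : IntermediateField ℚ F).FG) :
    Countable F := by
  obtain ⟨S, hS⟩ := h
  have h1 := IntermediateField.cardinalMk_adjoin_le (F := ℚ) (E := F) (S : Set F)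
  rw [hS] at h1
  have h2 : Cardinal.mk (S : Set F) ≤ Cardinal.aleph0 := by
    have : Countable (S : Set F) := inferInstance
    exact Cardinal.mk_le_aleph0
  have h3 : Cardinal.mk ℚ ≤ Cardinal.aleph0 := Cardinal.mk_le_aleph0
  have h4 : Cardinal.mk (⊤ : IntermediateField ℚ F) ≤ Cardinal.aleph0 :=
    h1.trans (sup_le (sup_le h3 h2) le_rfl)
  have h5 : Countable (⊤ : IntermediateField ℚ F) := Cardinal.mk_le_aleph0_iff.1 h4
  exact (IntermediateField.topEquiv (F := ℚ) (E := F)).symm.injective.countable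

section

variable {F : Type} [Field F] {p : ℕ} [Fact p.Prime]

/-- transcendental points `θ + p^M v`, `|v| = 1` -/
theorem piv_tau [Countable F] (σ : F →+* ℂ_[p]) (θ : ℂ_[p]) (M : ℕ) :
    ∃ v : ℚ_[p], ‖v‖ = 1 ∧ ∀ f : F[X], f ≠ 0 →
      f.eval₂ σ (θ + (p : ℂ_[p]) ^ M * algebraMap ℚ_[p] ℂ_[p] v) ≠ 0 := by
  classical
  have hcF : Countable F[X] := Cardinal.mk_le_aleph0_iff.1
    (Polynomial.cardinalMk_le_max.trans (max_le Cardinal.mk_le_aleph0 le_rfl))
  have hcount : (⋃ f : {f : F[X] // f ≠ 0}, {x : ℂ_[p] | f.1.eval₂ σ x = 0}).Countable := by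
    refine Set.countable_iUnion fun f => ?_
    have h1 : {x : ℂ_[p] | f.1.eval₂ σ x = 0} ⊆ ((f.1.map σ).roots.toFinset : Set ℂ_[p]) := by
      intro x hx
      have hx' : f.1.eval₂ σ x = 0 := hx
      rw [Finset.mem_coe, Multiset.mem_toFinset,
        mem_roots ((Polynomial.map_ne_zero_iff σ.injective).2 f.2), IsRoot.def, eval_map]
      exact hx'
    exact ((f.1.map σ).roots.toFinset.finite_toSet.subset h1).countable
  have hp0 : (p : ℂ_[p]) ≠ 0 := Nat.cast_ne_zero.2 (Fact.out : p.Prime).ne_zero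
  let g : ℚ_[p] → ℂ_[p] := fun v => θ + (p : ℂ_[p]) ^ M * algebraMap ℚ_[p] ℂ_[p] v
  have hg : Function.Injective g := by
    intro v w h
    have h1 : (p : ℂ_[p]) ^ M * algebraMap ℚ_[p] ℂ_[p] v =
        (p : ℂ_[p]) ^ M * algebraMap ℚ_[p] ℂ_[p] w := add_left_cancel h
    exact (algebraMap ℚ_[p] ℂ_[p]).injective (mul_left_cancel₀ (pow_ne_zero M hp0) h1)
  have hball : ¬ (Metric.ball (1 : ℚ_[p]) 1).Countable := by
    intro h
    have h1 := continuum_le_cardinal_of_isOpen (E := ℚ_[p]) ℚ_[p]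
      (Metric.isOpen_ball (x := (1 : ℚ_[p])) (ε := 1)) ⟨1, Metric.mem_ball_self one_pos⟩
    have h2 : Cardinal.mk (Metric.ball (1 : ℚ_[p]) 1) ≤ Cardinal.aleph0 :=
      Cardinal.le_aleph0_iff_set_countable.2 h
    exact absurd (h1.trans h2) (not_le.2 Cardinal.aleph0_lt_continuum)
  by_contra hcon
  push Not at hcon
  apply hball
  have hsub : Metric.ball (1 : ℚ_[p]) 1 ⊆
      g ⁻¹' (⋃ f : {f : F[X] // f ≠ 0}, {x : ℂ_[p] | f.1.eval₂ σ x = 0}) := by
    intro v hv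
    have hv1 : ‖v‖ = 1 := by
      rw [Metric.mem_ball, dist_eq_norm] at hv
      have h1 : ‖(v - 1) + 1‖ = max ‖v - 1‖ ‖(1 : ℚ_[p])‖ := by
        refine IsUltrametricDist.norm_add_eq_max_of_norm_ne_norm ?_
        rw [norm_one]
        exact hv.ne
      rw [sub_add_cancel, norm_one, max_eq_right hv.le] at h1
      exact h1
    obtain ⟨f, hf, hf0⟩ := hcon v hv1
    rw [Set.mem_preimage, Set.mem_iUnion]
    exact ⟨⟨f, hf⟩, hf0⟩
  exact (hcount.preimage hg).mono hsub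

theorem piv_norm_eq {x y : ℂ_[p]} (h : ‖x - y‖ < ‖y‖) : ‖x‖ = ‖y‖ := by
  have h1 : ‖(x - y) + y‖ = max ‖x - y‖ ‖y‖ :=
    IsUltrametricDist.norm_add_eq_max_of_norm_ne_norm h.ne
  rwa [sub_add_cancel, max_eq_right h.le] at h1

/-- norms of values of polynomials are eventually constant -/
theorem piv_event (Q : ℂ_[p][X]) (θ : ℂ_[p]) (τ : ℕ → ℂ_[p]) (hτ : Tendsto τ atTop (𝓝 θ))
    (hQ : Q.eval θ ≠ 0) : ∃ M₀ : ℕ, ∀ M ≥ M₀, ‖Q.eval (τ M)‖ = ‖Q.eval θ‖ := by
  have h1 : Tendsto (fun M => Q.eval (τ M)) atTop (𝓝 (Q.eval θ)) := (Q.continuous.tendsto θ).comp hτ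
  have h2 : Tendsto (fun M => ‖Q.eval (τ M) - Q.eval θ‖) atTop (𝓝 0) :=
    tendsto_iff_norm_sub_tendsto_zero.1 h1
  have h3 : ∀ᶠ M in atTop, ‖Q.eval (τ M) - Q.eval θ‖ < ‖Q.eval θ‖ :=
    h2.eventually (gt_mem_nhds (norm_pos_iff.2 hQ))
  obtain ⟨M₀, hM₀⟩ := eventually_atTop.1 h3
  exact ⟨M₀, fun M hM => piv_norm_eq (hM₀ M hM)⟩

/-- the family of specializations -/
theorem piv_fam (hEMB : ST_EMB) [CharZero F] (hFG : (⊤ : IntermediateField ℚ F).FG)
    (π : F[X]) (hπ : Irreducible π) :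
    ∃ (E : IntermediateField ℚ_[p] ℂ_[p]) (J : ℕ → (RatFunc F →+* ℂ_[p])),
      FiniteDimensional ℚ_[p] E ∧ (∀ M x, J M x ∈ E) ∧
      ∀ (x : RatFunc F) (v : ℤ), x ≠ 0 →
        UnitAt π (x * (algebraMap F[X] (RatFunc F) π) ^ (-v)) →
        ∃ C : ℝ, 0 < C ∧ ∃ M₀ : ℕ, ∀ M ≥ M₀, ‖J M x‖ = C * (p : ℝ) ^ (-((M : ℤ) * v)) := by
  have hcF : Countable F := piv_countable F hFG
  obtain ⟨σ, E₀, hE₀, hσ⟩ := hEMB F hFG p
  have hdeg : π.degree ≠ 0 := by
    intro h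
    exact hπ.not_isUnit (isUnit_iff_degree_eq_zero.2 h)
  obtain ⟨θ, hθ⟩ := IsAlgClosed.exists_eval₂_eq_zero σ π hdeg
  -- the field `E`
  have hθalg : IsIntegral ℚ_[p] θ := by
    let σ₀ : F →+* E₀ := σ.codRestrict E₀.toSubfield hσ
    have h1 : IsAlgebraic E₀ θ := by
      refine ⟨π.map σ₀, (Polynomial.map_ne_zero_iff σ₀.injective).2 hπ.ne_zero, ?_⟩
      rw [aeval_def, eval₂_map]
      have : (algebraMap E₀ ℂ_[p]).comp σ₀ = σ := rfl
      rw [this]
      exact hθ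
    exact (h1.restrictScalars ℚ_[p]).isIntegral
  have hfd : FiniteDimensional ℚ_[p] (IntermediateField.adjoin ℚ_[p] {θ}) :=
    IntermediateField.adjoin.finiteDimensional hθalg
  obtain ⟨E, hE⟩ : ∃ E : IntermediateField ℚ_[p] ℂ_[p],
      E = E₀ ⊔ IntermediateField.adjoin ℚ_[p] {θ} := ⟨_, rfl⟩
  have hEfin : FiniteDimensional ℚ_[p] E := by
    rw [hE]; exact IntermediateField.finiteDimensional_sup _ _
  have hσE : ∀ x, σ x ∈ E := fun x => by
    rw [hE]; exact (le_sup_left : E₀ ≤ _) (hσ x)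
  have hθE : θ ∈ E := by
    rw [hE]
    exact (le_sup_right : IntermediateField.adjoin ℚ_[p] {θ} ≤ _)
      (IntermediateField.mem_adjoin_simple_self ℚ_[p] θ)
  -- the points
  choose v hv1 hv2 using fun M => piv_tau (p := p) σ θ M
  obtain ⟨τ, hτdef⟩ : ∃ τ : ℕ → ℂ_[p],
      τ = fun M => θ + (p : ℂ_[p]) ^ M * algebraMap ℚ_[p] ℂ_[p] (v M) := ⟨_, rfl⟩
  have hτE : ∀ M, τ M ∈ E := by
    intro M
    rw [hτdef]
    refine add_mem hθE (mul_mem (pow_mem ?_ M) (E.algebraMap_mem _))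
    exact natCast_mem E p
  have htr : ∀ M, ∀ f : F[X], f ≠ 0 → f.eval₂ σ (τ M) ≠ 0 := by
    intro M f hf
    rw [hτdef]
    exact hv2 M f hf
  have hpn : ‖(p : ℂ_[p])‖ = (p : ℝ)⁻¹ := by
    have h1 := PadicComplex.norm_extends' p (p : ℚ_[p])
    have h2 : ((p : ℚ_[p]) : ℂ_[p]) = (p : ℂ_[p]) := by simp
    rw [h2] at h1
    rw [h1, Padic.norm_p]
  have hτn : ∀ M, ‖τ M - θ‖ = (p : ℝ) ^ (-(M : ℤ)) := by
    intro M
    have h1 : τ M - θ = (p : ℂ_[p]) ^ M * algebraMap ℚ_[p] ℂ_[p] (v M) := by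
      rw [hτdef]; simp
    have h2 : ‖algebraMap ℚ_[p] ℂ_[p] (v M)‖ = 1 := by
      have := PadicComplex.norm_extends' p (v M)
      rw [hv1 M] at this
      exact this
    rw [h1, norm_mul, norm_pow, hpn, h2, mul_one, zpow_neg, zpow_natCast, inv_pow]
  have hp1 : (1 : ℝ) < p := by exact_mod_cast (Fact.out : p.Prime).one_lt
  have hp0 : (0 : ℝ) < p := by linarith
  have hτt : Tendsto τ atTop (𝓝 θ) := by
    rw [tendsto_iff_norm_sub_tendsto_zero]
    have h1 : Tendsto (fun M : ℕ => ((p : ℝ)⁻¹) ^ M) atTop (𝓝 0) :=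
      tendsto_pow_atTop_nhds_zero_of_lt_one (by positivity) (inv_lt_one_of_one_lt₀ hp1)
    refine h1.congr fun M => ?_
    rw [hτn M, zpow_neg, zpow_natCast, inv_pow]
  -- the homomorphisms
  have hinj : ∀ M, Function.Injective (Polynomial.eval₂RingHom σ (τ M)) := by
    intro M
    rw [injective_iff_map_eq_zero]
    intro f hf
    by_contra hne
    exact htr M f hne hf
  let J : ℕ → (RatFunc F →+* ℂ_[p]) := fun M => RatFunc.liftRingHom (Polynomial.eval₂RingHom σ (τ M))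
    (nonZeroDivisors_le_comap_nonZeroDivisors_of_injective _ (hinj M))
  have hJ : ∀ M (f : F[X]), J M (algebraMap F[X] (RatFunc F) f) = f.eval₂ σ (τ M) := by
    intro M f
    exact RatFunc.liftRingHom_algebraMap _ _ f
  refine ⟨E, J, hEfin, ?_, ?_⟩
  · intro M x
    have h1 : ∀ f : F[X], f.eval₂ σ (τ M) ∈ E := by
      intro f
      rw [eval₂_eq_sum_range]
      exact sum_mem fun i _ => mul_mem (hσE _) (pow_mem (hτE M) i)
    rw [← RatFunc.num_div_denom x, map_div₀, hJ, hJ]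
    exact div_mem (h1 _) (h1 _)
  · intro x w hx hU
    obtain ⟨A, B, hA, hB, hAB⟩ := hU
    have hprime : ∀ A : F[X], ¬ π ∣ A → (A.map σ).eval θ ≠ 0 := by
      intro A hA h0
      obtain ⟨u, t, hut⟩ := (hπ.coprime_iff_not_dvd).2 hA
      have h1 := congrArg (fun f : F[X] => (f.map σ).eval θ) hut
      simp only [Polynomial.map_add, Polynomial.map_mul, Polynomial.eval_add, Polynomial.eval_mul,
        Polynomial.map_one, Polynomial.eval_one] at h1
      rw [h0, eval_map σ θ (p := π), hθ, mul_zero, mul_zero, add_zero] at h1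
      exact zero_ne_one h1
    -- `π` has a simple root at `θ`
    obtain ⟨q, hq⟩ : ∃ q : ℂ_[p][X], q = (π.map σ) /ₘ (X - C θ) := ⟨_, rfl⟩
    have hroot : IsRoot (π.map σ) θ := by
      rw [IsRoot.def, eval_map]; exact hθ
    have hfac : (X - C θ) * q = π.map σ := by
      rw [hq]; exact mul_divByMonic_eq_iff_isRoot.2 hroot
    have hqθ : q.eval θ ≠ 0 := by
      have hsep : π.Separable := hπ.separable
      have h1 := hsep.eval₂_derivative_ne_zero σ hθ
      intro h0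
      apply h1
      rw [eval₂_eq_eval_map, ← derivative_map, ← hfac, derivative_mul]
      simp [h0]
    obtain ⟨M₁, hM₁⟩ := piv_event (A.map σ) θ τ hτt (hprime A hA)
    obtain ⟨M₂, hM₂⟩ := piv_event (B.map σ) θ τ hτt (hprime B hB)
    obtain ⟨M₃, hM₃⟩ := piv_event q θ τ hτt hqθ
    have c1 : 0 < ‖(A.map σ).eval θ‖ := norm_pos_iff.2 (hprime A hA)
    have c2 : 0 < ‖(B.map σ).eval θ‖ := norm_pos_iff.2 (hprime B hB)
    have c3 : 0 < ‖q.eval θ‖ := norm_pos_iff.2 hqθ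
    refine ⟨‖(A.map σ).eval θ‖ * ‖q.eval θ‖ ^ w / ‖(B.map σ).eval θ‖, by positivity,
      max M₁ (max M₂ M₃), fun M hM => ?_⟩
    have hM1 : M₁ ≤ M := (le_max_left _ _).trans hM
    have hM2 : M₂ ≤ M := ((le_max_left _ _).trans (le_max_right _ _)).trans hM
    have hM3 : M₃ ≤ M := ((le_max_right _ _).trans (le_max_right _ _)).trans hM
    have nA : ‖J M (algebraMap F[X] (RatFunc F) A)‖ = ‖(A.map σ).eval θ‖ := by
      rw [hJ, ← eval_map]; exact hM₁ M hM1
    have nB : ‖J M (algebraMap F[X] (RatFunc F) B)‖ = ‖(B.map σ).eval θ‖ := by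
      rw [hJ, ← eval_map]; exact hM₂ M hM2
    have nπ : ‖J M (algebraMap F[X] (RatFunc F) π)‖ = (p : ℝ) ^ (-(M : ℤ)) * ‖q.eval θ‖ := by
      rw [hJ, ← eval_map, ← hfac, eval_mul, norm_mul, hM₃ M hM3]
      congr 1
      rw [eval_sub, eval_X, eval_C, hτn]
    have nπ0 : ‖J M (algebraMap F[X] (RatFunc F) π)‖ ≠ 0 := by
      rw [nπ]; positivity
    have h4 := congrArg (fun t => ‖J M t‖) hAB
    simp only [map_mul, norm_mul, map_zpow₀, norm_zpow] at h4
    rw [nA, nB] at h4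
    have h5 : ‖J M x‖ = ‖(A.map σ).eval θ‖ / ‖(B.map σ).eval θ‖ *
        ‖J M (algebraMap F[X] (RatFunc F) π)‖ ^ w := by
      rw [zpow_neg] at h4
      have h6 : ‖J M (algebraMap F[X] (RatFunc F) π)‖ ^ w ≠ 0 := zpow_ne_zero _ nπ0
      field_simp at h4 ⊢
      linarith
    rw [h5, nπ, mul_zpow, ← zpow_mul, neg_mul]
    ring

end

end Pool.Agent.Helper14.BSC
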